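import Mathlib

set_option autoImplicit false
open Filter Topology

namespace Pool.Agent.MonoBasis

section
variable {G : Type} [NormedAddCommGroup G] [NormedSpace ℝ G]

/-- bounded sequences starting at `0`, with increments along `b m`, which are Cauchy. -/
noncomputable def BS (b : ℕ → G) : Submodule ℝ (BoundedContinuousFunction ℕ G) where
  carrier := {y | y 0 = 0 ∧ (∀ m, y (m + 1) - y m ∈ Submodule.span ℝ {b m}) ∧ CauchySeq y}
  zero_mem' := by
    refine ⟨rfl, fun m => ?_, ?_⟩
    · simp
    · exact cauchySeq_const (0 : G)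
  add_mem' := by
    rintro x y ⟨hx0, hx1, hx2⟩ ⟨hy0, hy1, hy2⟩
    refine ⟨?_, fun m => ?_, ?_⟩
    · show x 0 + y 0 = 0
      rw [hx0, hy0, add_zero]
    · show (x (m + 1) + y (m + 1)) - (x m + y m) ∈ _
      have : (x (m + 1) + y (m + 1)) - (x m + y m) = (x (m + 1) - x m) + (y (m + 1) - y m) := by
        abel
      rw [this]
      exact Submodule.add_mem _ (hx1 m) (hy1 m)
    · exact hx2.add hy2
  smul_mem' := by
    rintro c x ⟨hx0, hx1, hx2⟩
    refine ⟨?_, fun m => ?_, ?_⟩
    · show c • x 0 = 0
      rw [hx0, smul_zero]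
    · show c • x (m + 1) - c • x m ∈ _
      rw [← smul_sub]
      exact Submodule.smul_mem _ _ (hx1 m)
    · exact (uniformContinuous_const_smul c).comp_cauchySeq hx2

lemma BS_closed (b : ℕ → G) : IsClosed ((BS b : Submodule ℝ _) : Set (BoundedContinuousFunction ℕ G)) := by
  have h1 : IsClosed {y : BoundedContinuousFunction ℕ G | y 0 = 0} :=
    isClosed_eq (continuous_eval_const _) continuous_const
  have h2 : IsClosed {y : BoundedContinuousFunction ℕ G |
      ∀ m, y (m + 1) - y m ∈ Submodule.span ℝ {b m}} := by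
    have : {y : BoundedContinuousFunction ℕ G |
      ∀ m, y (m + 1) - y m ∈ Submodule.span ℝ {b m}} = ⋂ m, {y : BoundedContinuousFunction ℕ G |
      y (m + 1) - y m ∈ Submodule.span ℝ {b m}} := by
      ext y; simp
    rw [this]
    refine isClosed_iInter fun m => ?_
    have hc : IsClosed ((Submodule.span ℝ {b m} : Submodule ℝ G) : Set G) :=
      Submodule.closed_of_finiteDimensional _
    exact hc.preimage ((continuous_eval_const _).sub
      (continuous_eval_const _))
  have h3 : IsClosed {y : BoundedContinuousFunction ℕ G | CauchySeq y} := by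
    apply isClosed_of_closure_subset
    intro y hy
    rw [Metric.mem_closure_iff] at hy
    show CauchySeq y
    rw [Metric.cauchySeq_iff]
    intro ε hε
    obtain ⟨z, hz, hyz⟩ := hy (ε / 3) (by positivity)
    have hz' : CauchySeq z := hz
    rw [Metric.cauchySeq_iff] at hz'
    obtain ⟨N, hN⟩ := hz' (ε / 3) (by positivity)
    refine ⟨N, fun m hm n hn => ?_⟩
    have a1 : dist (y m) (z m) ≤ dist y z := BoundedContinuousFunction.dist_coe_le_dist m
    have a2 : dist (y n) (z n) ≤ dist y z := BoundedContinuousFunction.dist_coe_le_dist n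
    have a3 := hN m hm n hn
    calc dist (y m) (y n) ≤ dist (y m) (z m) + dist (z m) (z n) + dist (z n) (y n) :=
          dist_triangle4 _ _ _ _
      _ < ε := by rw [dist_comm (z n) (y n)]; linarith
  exact h1.inter (h2.inter h3)

/-- basis vectors of `BS b` -/
noncomputable def eb (b : ℕ → G) (m : ℕ) : BoundedContinuousFunction ℕ G :=
  BoundedContinuousFunction.ofNormedAddCommGroupDiscrete (fun k => if m < k then b m else 0) ‖b m‖
    (by intro k; split_ifs <;> simp)

omit [NormedSpace ℝ G] in
lemma eb_apply (b : ℕ → G) (m k : ℕ) : eb b m k = if m < k then b m else 0 := rfl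

lemma eb_mem (b : ℕ → G) (m : ℕ) : eb b m ∈ BS b := by
  refine ⟨?_, fun k => ?_, ?_⟩
  · rw [eb_apply, if_neg (by omega)]
  · rw [eb_apply, eb_apply]
    by_cases h : m < k
    · rw [if_pos (by omega), if_pos h, sub_self]; exact Submodule.zero_mem _
    · by_cases h2 : m = k
      · subst h2
        rw [if_pos (by omega), if_neg h, sub_zero]
        exact Submodule.mem_span_singleton_self _
      · rw [if_neg (by omega), if_neg h, sub_zero]; exact Submodule.zero_mem _
  · apply Filter.Tendsto.cauchySeq (x := b m)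
    apply tendsto_atTop_of_eventually_const (i₀ := m + 1)
    intro i hi
    rw [eb_apply, if_pos (by omega)]

noncomputable def eB (b : ℕ → G) (m : ℕ) : BS b := ⟨eb b m, eb_mem b m⟩

lemma sum_apply (b : ℕ → G) (a : ℕ → ℝ) (n k : ℕ) :
    ((∑ i ∈ Finset.range n, a i • eB b i : BS b) : BoundedContinuousFunction ℕ G) k
      = ∑ i ∈ Finset.range (min n k), a i • b i := by
  induction n with
  | zero => simp
  | succ n ih =>
    rw [Finset.sum_range_succ, Submodule.coe_add, Submodule.coe_smul]
    show ((∑ i ∈ Finset.range n, a i • eB b i : BS b) : BoundedContinuousFunction ℕ G) k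
      + a n • (eb b n k) = _
    rw [ih, eb_apply]
    by_cases h : n < k
    · rw [if_pos h, min_eq_left (by omega : n + 1 ≤ k), min_eq_left (by omega : n ≤ k),
        Finset.sum_range_succ]
    · rw [if_neg h, smul_zero, add_zero, min_eq_right (by omega : k ≤ n + 1),
        min_eq_right (by omega : k ≤ n)]

lemma norm_le_of_forall (b : ℕ → G) (x : BS b) (C : ℝ) (hC : 0 ≤ C)
    (h : ∀ k, ‖(x : BoundedContinuousFunction ℕ G) k‖ ≤ C) : ‖x‖ ≤ C :=
  (BoundedContinuousFunction.norm_le hC).2 h

lemma apply_norm_le (b : ℕ → G) (x : BS b) (k : ℕ) :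
    ‖(x : BoundedContinuousFunction ℕ G) k‖ ≤ ‖x‖ :=
  BoundedContinuousFunction.norm_coe_le_norm _ k

lemma basis_mono (b : ℕ → G) (a : ℕ → ℝ) (n m : ℕ) (hnm : n ≤ m) :
    ‖∑ i ∈ Finset.range n, a i • eB b i‖ ≤ ‖∑ i ∈ Finset.range m, a i • eB b i‖ := by
  apply norm_le_of_forall _ _ _ (norm_nonneg _)
  intro k
  rw [sum_apply]
  have := apply_norm_le b (∑ i ∈ Finset.range m, a i • eB b i) (min n k)
  rw [sum_apply] at this
  have e : min m (min n k) = min n k := by omega
  rwa [e] at this

lemma basis_ex (b : ℕ → G) (hb : ∀ m, b m ≠ 0) (x : BS b) : ∃! a : ℕ → ℝ,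
    Tendsto (fun n : ℕ => ∑ i ∈ Finset.range n, a i • eB b i) atTop (𝓝 x) := by
  obtain ⟨y, hy0, hy1, hy2⟩ := x
  have hex : ∀ m, ∃ a : ℝ, a • b m = y (m + 1) - y m := fun m =>
    Submodule.mem_span_singleton.mp (hy1 m)
  choose a ha using hex
  have hP : ∀ k, y k = ∑ i ∈ Finset.range k, a i • b i := by
    intro k
    induction k with
    | zero => simpa using hy0
    | succ k ih => rw [Finset.sum_range_succ, ← ih, ha]; abel
  refine ⟨a, ?_, ?_⟩
  · show Tendsto (fun n : ℕ => ∑ i ∈ Finset.range n, a i • eB b i) atTop (𝓝 (⟨y, hy0, hy1, hy2⟩ : BS b))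
    rw [Metric.tendsto_atTop]
    intro ε hε
    rw [Metric.cauchySeq_iff] at hy2
    obtain ⟨N, hN⟩ := hy2 (ε / 2) (by positivity)
    refine ⟨N, fun n hn => ?_⟩
    rw [dist_eq_norm]
    refine lt_of_le_of_lt (norm_le_of_forall _ _ (ε / 2) (by positivity) ?_) (by linarith)
    intro k
    rw [Submodule.coe_sub]
    show ‖((∑ i ∈ Finset.range n, a i • eB b i : BS b) : BoundedContinuousFunction ℕ G) k - y k‖ ≤ _
    rw [sum_apply, ← hP]
    by_cases h : k ≤ n
    · rw [min_eq_right h, sub_self, norm_zero]; positivity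
    · rw [min_eq_left (by omega), ← dist_eq_norm]
      exact (hN n hn k (by omega)).le
  · intro a' ha'
    have hpt : ∀ k, Tendsto (fun n : ℕ =>
        ((∑ i ∈ Finset.range n, a' i • eB b i : BS b) : BoundedContinuousFunction ℕ G) k) atTop
        (𝓝 (y k)) := by
      intro k
      have hc : Continuous (fun z : BS b => (z : BoundedContinuousFunction ℕ G) k) :=
        (continuous_eval_const _).comp continuous_subtype_val
      exact (hc.tendsto _).comp ha'
    have hP' : ∀ k, y k = ∑ i ∈ Finset.range k, a' i • b i := by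
      intro k
      refine tendsto_nhds_unique (hpt k) ?_
      apply tendsto_atTop_of_eventually_const (i₀ := k)
      intro n hn
      rw [sum_apply, min_eq_right hn]
    funext k
    have e1 : a' k • b k = a k • b k := by
      have h1 := hP' (k + 1)
      have h2 := hP (k + 1)
      rw [Finset.sum_range_succ, ← hP' k] at h1
      rw [Finset.sum_range_succ, ← hP k] at h2
      have := h1.symm.trans h2
      exact add_left_cancel this
    have e2 : (a' k - a k) • b k = 0 := by rw [sub_smul, e1, sub_self]
    rcases smul_eq_zero.mp e2 with h | h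
    · linarith
    · exact absurd h (hb k)

end
end Pool.Agent.MonoBasis
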