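import Pool.Agent.H0.MonoBasis.NoRank2
import Pool.Agent.H0.MonoBasis.Space

set_option autoImplicit false
open Filter Topology
open scoped InnerProductSpace

namespace Pool.Agent.MonoBasis

/-- which coordinate is updated at step `m` -/
noncomputable def vis (m : ℕ) : ℕ := padicValNat 2 (m + 1)

/-- one plus (time of last update plus one) -/
noncomputable def pp : ℕ → ℕ → ℕ
  | 0, _ => 1
  | (n + 1), j => if j = vis n then n + 2 else pp n j

lemma pp_zero (j : ℕ) : pp 0 j = 1 := rfl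
lemma pp_succ (n j : ℕ) : pp (n + 1) j = if j = vis n then n + 2 else pp n j := rfl

lemma pp_pos (n j : ℕ) : 1 ≤ pp n j := by
  induction n with
  | zero => rw [pp_zero]
  | succ n ih => rw [pp_succ]; split_ifs <;> omega

lemma pp_le (n j : ℕ) : pp n j ≤ n + 1 := by
  induction n with
  | zero => rw [pp_zero]
  | succ n ih => rw [pp_succ]; split_ifs <;> omega

lemma pp_visit (j m : ℕ) (h : vis m = j) : ∀ n, m < n → m + 2 ≤ pp n j := by
  intro n
  induction n with
  | zero => intro h; omega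
  | succ n ih =>
    intro hmn
    rw [pp_succ]
    split_ifs with hj
    · omega
    · have : m ≠ n := by rintro rfl; exact hj h.symm
      exact ih (by omega)

lemma vis_eq (j q m : ℕ) (h : m + 1 = 2 ^ j * (2 * q + 1)) : vis m = j := by
  unfold vis
  rw [h, padicValNat.mul (by positivity) (by omega), padicValNat.prime_pow]
  rw [padicValNat.eq_zero_of_not_dvd (by omega), add_zero]

lemma pp_lower (n j : ℕ) : n + 1 ≤ 2 ^ (j + 1) * pp n j := by
  have hp := pp_pos n j
  have hJ : 2 ^ (j + 1) = 2 * 2 ^ j := by ring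
  have hJ0 : 0 < 2 ^ j := by positivity
  by_cases h : n < 2 ^ j
  · calc n + 1 ≤ 2 ^ j := h
      _ ≤ 2 ^ (j + 1) * 1 := by omega
      _ ≤ _ := Nat.mul_le_mul_left _ hp
  · push Not at h
    set q := (n - 2 ^ j) / 2 ^ (j + 1) with hq
    have hdm := Nat.div_add_mod (n - 2 ^ j) (2 ^ (j + 1))
    have hmod := Nat.mod_lt (n - 2 ^ j) (show 0 < 2 ^ (j + 1) by positivity)
    rw [← hq] at hdm
    have e : 2 ^ j * (2 * q + 1) = 2 ^ (j + 1) * q + 2 ^ j := by rw [hJ]; ring
    obtain ⟨m, hm⟩ : ∃ m, m + 1 = 2 ^ j * (2 * q + 1) :=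
      ⟨2 ^ j * (2 * q + 1) - 1, by have : 0 < 2 ^ j * (2 * q + 1) := by positivity
                                   omega⟩
    have hv := vis_eq j q m hm
    have hlt : m < n := by omega
    have h2 := pp_visit j m hv n hlt
    have h3 : n + 1 ≤ (m + 2) + 2 ^ (j + 1) := by omega
    have h4 : (m + 2) + 2 ^ (j + 1) ≤ 2 ^ (j + 1) * (m + 2) := by
      have : 2 ≤ 2 ^ (j + 1) := by omega
      nlinarith
    calc n + 1 ≤ 2 ^ (j + 1) * (m + 2) := h3.trans h4
      _ ≤ _ := Nat.mul_le_mul_left _ h2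

/-- multipliers -/
noncomputable def sg (n j : ℕ) : ℝ := 1 - 1 / (pp n j : ℝ)

lemma sg_zero (j : ℕ) : sg 0 j = 0 := by unfold sg; rw [pp_zero]; norm_num

lemma sg_nonneg (n j : ℕ) : 0 ≤ sg n j := by
  unfold sg
  have : (1 : ℝ) ≤ pp n j := by exact_mod_cast pp_pos n j
  rw [sub_nonneg, div_le_one (by linarith)]
  exact this

lemma sg_le (n j : ℕ) : sg n j ≤ 1 - 1 / ((n : ℝ) + 1) := by
  unfold sg
  have h1 : (1 : ℝ) ≤ pp n j := by exact_mod_cast pp_pos n j
  have h2 : (pp n j : ℝ) ≤ n + 1 := by exact_mod_cast pp_le n j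
  have := one_div_le_one_div_of_le (by linarith) h2
  linarith

lemma sg_lower (n j : ℕ) : 1 - sg n j ≤ 2 ^ (j + 1) * (1 / ((n : ℝ) + 1)) := by
  unfold sg
  have h1 : (1 : ℝ) ≤ pp n j := by exact_mod_cast pp_pos n j
  have h2 : (n : ℝ) + 1 ≤ 2 ^ (j + 1) * pp n j := by exact_mod_cast pp_lower n j
  rw [sub_sub_cancel, div_le_iff₀ (by linarith), mul_one_div, div_mul_eq_mul_div,
    le_div_iff₀ (by positivity)]
  linarith

lemma sg_succ (n j : ℕ) (h : j ≠ vis n) : sg (n + 1) j = sg n j := by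
  unfold sg; rw [pp_succ, if_neg h]

/-- unit vectors -/
noncomputable def ev (j : ℕ) : H := lp.single 2 j (1 : ℝ)

lemma ev_apply (j i : ℕ) : (ev j : H) i = if i = j then 1 else 0 := by
  unfold ev
  by_cases h : i = j
  · subst h; simp
  · rw [lp.single_apply_ne _ _ _ h, if_neg h]

noncomputable def al (m : ℕ) : ℝ := sg (m + 1) (vis m) - sg m (vis m)

/-- the approximants -/
noncomputable def SS (k : ℕ) (x : H) : H :=
  ∑ m ∈ Finset.range k, (al m * x (vis m)) • ev (vis m)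

lemma SS_succ (k : ℕ) (x : H) : SS (k + 1) x = SS k x + (al k * x (vis k)) • ev (vis k) := by
  unfold SS; rw [Finset.sum_range_succ]

lemma SS_apply (k j : ℕ) (x : H) : SS k x j = sg k j * x j := by
  induction k with
  | zero => simp [SS, sg_zero]
  | succ k ih =>
    rw [SS_succ, lp.coeFn_add, Pi.add_apply, ih, lp.coeFn_smul, Pi.smul_apply, ev_apply]
    by_cases h : j = vis k
    · rw [if_pos h, h]
      unfold al
      simp only [smul_eq_mul, mul_one]
      ring
    · rw [if_neg h, sg_succ k j h]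
      simp

lemma SS_add (k : ℕ) (x y : H) : SS k (x + y) = SS k x + SS k y := by
  ext j
  rw [lp.coeFn_add, Pi.add_apply, SS_apply, SS_apply, SS_apply, lp.coeFn_add, Pi.add_apply]
  ring

lemma SS_smul (k : ℕ) (c : ℝ) (x : H) : SS k (c • x) = c • SS k x := by
  ext j
  rw [lp.coeFn_smul, Pi.smul_apply, SS_apply, SS_apply, lp.coeFn_smul, Pi.smul_apply]
  simp only [smul_eq_mul]
  ring

lemma SS_norm (k : ℕ) (x : H) : ‖SS k x‖ ≤ (1 - 1 / ((k : ℝ) + 1)) * ‖x‖ := by
  have hd : 0 ≤ 1 - 1 / ((k : ℝ) + 1) := (sg_nonneg k 0).trans (sg_le k 0)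
  have h1 : ‖SS k x‖ ≤ ‖(1 - 1 / ((k : ℝ) + 1)) • x‖ := by
    apply lp.norm_mono (by norm_num)
    intro i
    rw [SS_apply, lp.coeFn_smul, Pi.smul_apply, smul_eq_mul, norm_mul, norm_mul]
    apply mul_le_mul_of_nonneg_right _ (norm_nonneg _)
    rw [Real.norm_of_nonneg (sg_nonneg k i), Real.norm_of_nonneg hd]
    exact sg_le k i
  rwa [norm_smul, Real.norm_of_nonneg hd] at h1

lemma SS_ph (k n : ℕ) (x : H) :
    |ph n (SS k x)| ≤ (1 - 1 / ((k : ℝ) + 1)) * |ph n x| + 4 * (1 / ((k : ℝ) + 1)) * ‖x‖ := by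
  set δ : ℝ := 1 / ((k : ℝ) + 1) with hδ
  have hδ0 : 0 ≤ δ := by positivity
  have hd : 0 ≤ 1 - δ := (sg_nonneg k 0).trans (sg_le k 0)
  have h1 := ph_hasSum n (SS k x)
  have h2 := (ph_hasSum n x).mul_left (1 - δ)
  have h3 := h1.sub h2
  have hg : HasSum (fun j : ℕ => (2 * δ * ‖x‖) * (1 / 2 : ℝ) ^ j) ((2 * δ * ‖x‖) * (1 - 1 / 2)⁻¹) :=
    (hasSum_geometric_of_lt_one (by norm_num) (by norm_num)).mul_left _
  have hb : ∀ j, ‖tt n ^ j * SS k x j - (1 - δ) * (tt n ^ j * x j)‖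
      ≤ (2 * δ * ‖x‖) * (1 / 2 : ℝ) ^ j := by
    intro j
    have e : tt n ^ j * SS k x j - (1 - δ) * (tt n ^ j * x j)
        = -((1 - δ - sg k j) * tt n ^ j * x j) := by rw [SS_apply]; ring
    have ht := tt_pos n
    rw [e, norm_neg, norm_mul, norm_mul, Real.norm_of_nonneg (by linarith [sg_le k j]),
      Real.norm_of_nonneg (by positivity : (0 : ℝ) ≤ tt n ^ j)]
    have a1 : 1 - δ - sg k j ≤ 2 ^ (j + 1) * δ := by linarith [sg_lower k j]
    have a0 : 0 ≤ 1 - δ - sg k j := by linarith [sg_le k j]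
    have a2 : tt n ^ j ≤ (1 / 4) ^ j := pow_le_pow_left₀ ht.le (tt_le n) j
    have a3 : ‖x j‖ ≤ ‖x‖ := by simpa using abs_le_norm x j
    calc (1 - δ - sg k j) * tt n ^ j * ‖x j‖ ≤ (2 ^ (j + 1) * δ) * (1 / 4) ^ j * ‖x‖ := by
          apply mul_le_mul _ a3 (norm_nonneg _) (by positivity)
          exact mul_le_mul a1 a2 (by positivity) (by positivity)
      _ = (2 * δ * ‖x‖) * (1 / 2 : ℝ) ^ j := by
          have : (1 / 4 : ℝ) ^ j * 2 ^ j = (1 / 2) ^ j := by
            rw [← mul_pow]; norm_num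
          rw [← this]; ring
  have h4 := tsum_of_norm_bounded hg hb
  rw [h3.tsum_eq, Real.norm_eq_abs] at h4
  have h5 : |ph n (SS k x)| ≤ |(1 - δ) * ph n x| + |ph n (SS k x) - (1 - δ) * ph n x| := by
    have := abs_add_le ((1 - δ) * ph n x) (ph n (SS k x) - (1 - δ) * ph n x)
    simpa using this
  rw [abs_mul, abs_of_nonneg hd] at h5
  have e6 : (2 * δ * ‖x‖) * (1 - 1 / 2)⁻¹ = 4 * δ * ‖x‖ := by ring
  rw [e6] at h4
  linarith

lemma SS_NN (k : ℕ) (x : H) : NN (SS k x) ≤ NN x := by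
  set δ : ℝ := 1 / ((k : ℝ) + 1) with hδ
  have hδ0 : 0 ≤ δ := by positivity
  have hd : 0 ≤ 1 - δ := (sg_nonneg k 0).trans (sg_le k 0)
  have h1 := SS_norm k x
  have h2 : ∑' n, cc n * |ph n (SS k x)| ≤ ∑' n, ((1 - δ) * (cc n * |ph n x|) + cc n * (4 * δ * ‖x‖)) := by
    refine (sm _).tsum_le_tsum (fun n => ?_) (((sm x).mul_left _).add (cc_summable.mul_right _))
    have := mul_le_mul_of_nonneg_left (SS_ph k n x) (cc_pos n).le
    rw [← hδ] at this
    linarith
  rw [((sm x).mul_left _).tsum_add (cc_summable.mul_right _), tsum_mul_left, tsum_mul_right,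
    cc_hasSum.tsum_eq] at h2
  unfold NN
  rw [← hδ] at h1
  have h0 : 0 ≤ ∑' n, cc n * |ph n x| := tsum_nonneg fun n => mul_nonneg (cc_pos n).le (abs_nonneg _)
  have := mul_nonneg hδ0 h0
  linarith

lemma normsq (x : H) : HasSum (fun j => x j * x j) (‖x‖ ^ 2) := by
  have := lp.hasSum_inner (𝕜 := ℝ) x x
  rw [real_inner_self_eq_norm_sq] at this
  have e : (fun j => x j * x j) = fun i => ⟪(x : ℕ → ℝ) i, (x : ℕ → ℝ) i⟫_ℝ := by
    funext j
    simp [sq]
  rw [e]
  exact this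

lemma SS_tendsto (x : H) : Tendsto (fun k => ‖SS k x - x‖) atTop (𝓝 0) := by
  have hsq : Tendsto (fun k => ‖SS k x - x‖ ^ 2) atTop (𝓝 0) := by
    have e : ∀ k, ‖SS k x - x‖ ^ 2 = ∑' j, (SS k x - x : H) j * (SS k x - x : H) j :=
      fun k => (normsq _).tsum_eq.symm
    simp_rw [e]
    have : (0 : ℝ) = ∑' j : ℕ, (0 : ℝ) := by simp
    rw [this]
    apply tendsto_tsum_of_dominated_convergence (bound := fun j => x j * x j) (normsq x).summable
    · intro j
      have h1 : Tendsto (fun k => (SS k x - x : H) j) atTop (𝓝 0) := by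
        apply squeeze_zero_norm (a := fun k : ℕ => (2 ^ (j + 1) * |x j|) * (1 / ((k : ℝ) + 1)))
        · intro k
          rw [lp.coeFn_sub, Pi.sub_apply, SS_apply]
          have e : sg k j * x j - x j = -((1 - sg k j) * x j) := by ring
          have a1 := sg_lower k j
          have a0 : 0 ≤ 1 - sg k j := by
            have := sg_le k j
            have : (0 : ℝ) ≤ 1 / ((k : ℝ) + 1) := by positivity
            linarith
          rw [e, norm_neg, norm_mul, Real.norm_of_nonneg a0, Real.norm_eq_abs]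
          have := mul_le_mul_of_nonneg_right a1 (abs_nonneg (x j))
          linarith
        · have := (tendsto_one_div_add_atTop_nhds_zero_nat (𝕜 := ℝ)).const_mul (2 ^ (j + 1) * |x j|)
          rwa [mul_zero] at this
      have := h1.mul h1
      rwa [mul_zero] at this
    · filter_upwards with k j
      rw [lp.coeFn_sub, Pi.sub_apply, SS_apply]
      have e : sg k j * x j - x j = -((1 - sg k j) * x j) := by ring
      rw [e, neg_mul_neg, norm_mul, norm_mul]
      have a0 : 0 ≤ 1 - sg k j := by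
        have := sg_le k j
        have : (0 : ℝ) ≤ 1 / ((k : ℝ) + 1) := by positivity
        linarith
      have a1 : 1 - sg k j ≤ 1 := by linarith [sg_nonneg k j]
      rw [Real.norm_of_nonneg a0]
      have : x j * x j = ‖x j‖ * ‖x j‖ := by rw [Real.norm_eq_abs, abs_mul_abs_self]
      rw [this]
      have hb : (1 - sg k j) * ‖x j‖ ≤ 1 * ‖x j‖ := mul_le_mul_of_nonneg_right a1 (norm_nonneg _)
      rw [one_mul] at hb
      exact mul_le_mul hb hb (by positivity) (norm_nonneg _)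
  have := hsq.sqrt
  rw [Real.sqrt_zero] at this
  refine this.congr fun k => ?_
  rw [Real.sqrt_sq (norm_nonneg _)]

end Pool.Agent.MonoBasis
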