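import Pool.Agent.H0.MonoBasis.Embed

set_option autoImplicit false
open Filter Topology
open scoped InnerProductSpace

namespace Pool.Agent.MonoBasis

/-- identity cast -/
def ofHN (x : HN) : H := x

/-- the steps -/
noncomputable def bb (m : ℕ) : HN := ev (vis m)

lemma ev_ne (j : ℕ) : ev j ≠ 0 := by
  intro h
  have : (ev j : H) j = 0 := by rw [h]; rfl
  rw [ev_apply, if_pos rfl] at this
  norm_num at this

lemma bb_ne (m : ℕ) : bb m ≠ 0 := ev_ne _

/-- approximants as elements of `HN`. -/
noncomputable def SN (k : ℕ) (x : HN) : HN := SS k x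

lemma SN_add (k : ℕ) (x y : HN) : SN k (x + y) = SN k x + SN k y := SS_add k x y
lemma SN_smul (k : ℕ) (c : ℝ) (x : HN) : SN k (c • x) = c • SN k x := SS_smul k c x
lemma SN_norm (k : ℕ) (x : HN) : ‖SN k x‖ ≤ ‖x‖ := SS_NN k x
lemma SN_zero (x : HN) : SN 0 x = 0 := by
  show SS 0 x = 0
  unfold SS
  rw [Finset.sum_range_zero]

lemma SN_succ (k : ℕ) (x : HN) :
    SN (k + 1) x - SN k x ∈ Submodule.span ℝ {bb k} := by
  have : SN (k + 1) x = SN k x + (al k * (show H from x) (vis k)) • bb k := SS_succ k x
  rw [this, add_sub_cancel_left]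
  exact Submodule.smul_mem _ _ (Submodule.mem_span_singleton_self _)

lemma SN_tendsto (x : HN) : Tendsto (fun k => SN k x) atTop (𝓝 x) := by
  rw [tendsto_iff_norm_sub_tendsto_zero]
  have h := (SS_tendsto x).const_mul 2
  rw [mul_zero] at h
  refine squeeze_zero (fun k => norm_nonneg _) (fun k => ?_) h
  exact NN_le (SS k x - ofHN x)

/-- the Banach space -/
abbrev BB : Type := BS bb

instance : CompleteSpace BB := (BS_closed bb).completeSpace_coe

/-- the isometric embedding -/
noncomputable def J : HN →ₗ[ℝ] BB where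
  toFun x := ⟨BoundedContinuousFunction.ofNormedAddCommGroupDiscrete (fun k => SN k x) ‖x‖
    (fun k => SN_norm k x), ⟨SN_zero x, fun m => SN_succ m x, (SN_tendsto x).cauchySeq⟩⟩
  map_add' x y := by
    apply Subtype.ext
    ext k
    exact SN_add k x y
  map_smul' c x := by
    apply Subtype.ext
    ext k
    exact SN_smul k c x

lemma J_apply (x : HN) (k : ℕ) : (J x : BoundedContinuousFunction ℕ HN) k = SN k x := rfl

lemma J_norm_le (x : HN) : ‖J x‖ ≤ ‖x‖ :=
  norm_le_of_forall bb (J x) ‖x‖ (norm_nonneg _) (fun k => SN_norm k x)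

lemma exlim (y : BB) : ∃ x : HN, Tendsto (y : BoundedContinuousFunction ℕ HN) atTop (𝓝 x) :=
  cauchySeq_tendsto_of_complete y.2.2.2

/-- the limit map -/
noncomputable def L : BB →ₗ[ℝ] HN where
  toFun y := (exlim y).choose
  map_add' x y := by
    refine tendsto_nhds_unique (exlim (x + y)).choose_spec ?_
    exact (exlim x).choose_spec.add (exlim y).choose_spec
  map_smul' c x := by
    refine tendsto_nhds_unique (exlim (c • x)).choose_spec ?_
    exact (exlim x).choose_spec.const_smul c

lemma L_spec (y : BB) : Tendsto (y : BoundedContinuousFunction ℕ HN) atTop (𝓝 (L y)) :=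
  (exlim y).choose_spec

lemma L_norm_le (y : BB) : ‖L y‖ ≤ ‖y‖ :=
  le_of_tendsto (L_spec y).norm (Eventually.of_forall fun k => apply_norm_le bb y k)

lemma L_J (x : HN) : L (J x) = x := tendsto_nhds_unique (L_spec (J x)) (SN_tendsto x)

lemma J_norm (x : HN) : ‖J x‖ = ‖x‖ := by
  apply le_antisymm (J_norm_le x)
  have := L_norm_le (J x)
  rwa [L_J] at this

lemma J_inj : Function.Injective J := by
  intro x y h
  rw [← L_J x, h, L_J]

/-- the projection -/
noncomputable def P : BB →L[ℝ] BB :=
  LinearMap.mkContinuous (J ∘ₗ L) 1 (by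
    intro y
    rw [one_mul]
    exact (J_norm_le _).trans (L_norm_le y))

lemma P_apply (y : BB) : P y = J (L y) := rfl

lemma P_norm : ‖P‖ ≤ 1 := LinearMap.mkContinuous_norm_le _ (by norm_num) _

lemma F_closed : IsClosed ((LinearMap.range J : Submodule ℝ BB) : Set BB) := by
  have : ((LinearMap.range J : Submodule ℝ BB) : Set BB) = {y | P y = y} := by
    ext y
    constructor
    · rintro ⟨x, rfl⟩
      show P (J x) = J x
      rw [P_apply, L_J]
    · intro hy
      have hy' : P y = y := hy
      exact ⟨L y, by rw [← P_apply, hy']⟩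
  rw [this]
  exact isClosed_eq P.continuous continuous_id

lemma HN_infinite : ¬ FiniteDimensional ℝ HN := by
  intro h
  have := h
  set d := Module.finrank ℝ HN with hd
  let f : HN →ₗ[ℝ] (Fin (d + 1) → ℝ) :=
    { toFun := fun x i => ph i x
      map_add' := fun x y => by funext i; exact ph_add _ _ _
      map_smul' := fun c x => by funext i; exact ph_smul _ _ _ }
  have hf : Function.Surjective f := by
    intro r
    obtain ⟨w, hw⟩ := interp (Finset.range (d + 1)) (fun n => if h : n < d + 1 then r ⟨n, h⟩ else 0)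
    refine ⟨w, ?_⟩
    funext i
    show ph i w = r i
    rw [hw i (Finset.mem_range.mpr i.2), dif_pos i.2]
  have := LinearMap.finrank_le_finrank_of_surjective hf
  rw [Module.finrank_fin_fun] at this
  omega

lemma F_infinite : ¬ FiniteDimensional ℝ (LinearMap.range J : Submodule ℝ BB) := by
  intro h
  have := h
  exact HN_infinite (Module.Finite.equiv (LinearEquiv.ofInjective J J_inj).symm)

lemma BB_infinite : ¬ FiniteDimensional ℝ BB := by
  intro h
  have := h
  exact F_infinite inferInstance

lemma J_smul_add (a b : ℝ) (u v z : HN) : J (a • u + b • v + z) = a • J u + b • J v + J z := by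
  rw [map_add, map_add, map_smul, map_smul]

theorem no_basis (f : ℕ → BB) (hfF : ∀ i, f i ∈ LinearMap.range J)
    (hex : ∀ x ∈ LinearMap.range J, ∃! a : ℕ → ℝ,
          Tendsto (fun n : ℕ => ∑ i ∈ Finset.range n, a i • f i) atTop (𝓝 x))
    (hmono : ∀ (a : ℕ → ℝ) (n m : ℕ), n ≤ m →
          ‖∑ i ∈ Finset.range n, a i • f i‖ ≤ ‖∑ i ∈ Finset.range m, a i • f i‖) : False := by
  obtain ⟨u, hu⟩ := hfF 0
  obtain ⟨v, hv⟩ := hfF 1
  -- the tail subspace
  let Z : Submodule ℝ H :=
    { carrier := {z | ∃ a : ℕ → ℝ, a 0 = 0 ∧ a 1 = 0 ∧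
        Tendsto (fun n : ℕ => ∑ i ∈ Finset.range n, a i • f i) atTop (𝓝 (J z))}
      zero_mem' := ⟨fun _ => 0, rfl, rfl, by
        have : J (0 : HN) = 0 := map_zero J
        show Tendsto _ _ (𝓝 (J (0 : HN)))
        rw [this]
        simp⟩
      add_mem' := by
        rintro x y ⟨a, ha0, ha1, ha⟩ ⟨b, hb0, hb1, hb⟩
        refine ⟨fun i => a i + b i, by simp only [ha0, hb0, add_zero],
          by simp only [ha1, hb1, add_zero], ?_⟩
        have := ha.add hb
        have e : J (show HN from x + y) = J x + J y := map_add J (x : HN) (y : HN)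
        show Tendsto _ _ (𝓝 (J (show HN from x + y)))
        rw [e]
        refine this.congr fun n => ?_
        rw [← Finset.sum_add_distrib]
        exact Finset.sum_congr rfl fun i _ => (add_smul _ _ _).symm
      smul_mem' := by
        rintro c x ⟨a, ha0, ha1, ha⟩
        refine ⟨fun i => c * a i, by simp only [ha0, mul_zero], by simp only [ha1, mul_zero], ?_⟩
        have := ha.const_smul c
        have e : J (show HN from c • x) = c • J x := map_smul J c (x : HN)
        show Tendsto _ _ (𝓝 (J (show HN from c • x)))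
        rw [e]
        refine this.congr fun n => ?_
        rw [Finset.smul_sum]
        exact Finset.sum_congr rfl fun i _ => (mul_smul _ _ _).symm }
  have two : ∀ (a : ℕ → ℝ), ∑ i ∈ Finset.range 2, a i • f i = a 0 • J u + a 1 • J v := by
    intro a
    rw [Finset.sum_range_succ, Finset.sum_range_one, hu, hv]
  refine no_rank2 (ofHN u) (ofHN v) ?_ Z ?_ ?_
  · intro a b hab
    have h0 : (0 : BB) ∈ LinearMap.range J := Submodule.zero_mem _
    obtain ⟨c, hc, huniq⟩ := hex 0 h0
    have e0 : (fun _ => (0 : ℝ)) = c := huniq _ (by simp)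
    have e1 : (fun i : ℕ => if i = 0 then a else if i = 1 then b else 0) = c := by
      apply huniq
      show Tendsto _ _ _
      apply tendsto_atTop_of_eventually_const (i₀ := 2)
      intro n hn
      obtain ⟨k, rfl⟩ : ∃ k, n = 2 + k := ⟨n - 2, by omega⟩
      rw [Finset.sum_range_add, two]
      have hJ : a • J u + b • J v = 0 := by
        rw [← map_smul, ← map_smul, ← map_add]
        have : (a • u + b • v : HN) = 0 := hab
        rw [this, map_zero]
      have h2 : ∑ x ∈ Finset.range k, (if 2 + x = 0 then a else if 2 + x = 1 then b else 0) • f (2 + x)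
          = 0 := by
        refine Finset.sum_eq_zero fun i _ => ?_
        rw [if_neg (by omega), if_neg (by omega), zero_smul]
      rw [h2, add_zero]
      simpa using hJ
    have e2 := e1.trans e0.symm
    have q0 := congrFun e2 0
    have q1 := congrFun e2 1
    simp at q0 q1
    exact ⟨q0, q1⟩
  · rintro a b z ⟨c, hc0, hc1, hc⟩
    have n1 : NN (a • ofHN u + b • ofHN v) = ‖a • J u + b • J v‖ := by
      have := J_norm (a • u + b • v : HN)
      rw [map_add, map_smul, map_smul] at this
      rw [this]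
      rfl
    have n2 : NN (a • ofHN u + b • ofHN v + z) = ‖a • J u + b • J v + J z‖ := by
      have := J_norm (a • u + b • v + (show HN from z) : HN)
      rw [J_smul_add] at this
      have e3 : ‖a • J u + b • J v + J z‖ = ‖(a • u + b • v + (show HN from z) : HN)‖ := this
      rw [e3]
      rfl
    rw [n1, n2]
    set a' : ℕ → ℝ := fun i => (if i = 0 then a else if i = 1 then b else 0) + c i with ha'
    have hlim : Tendsto (fun n : ℕ => ∑ i ∈ Finset.range n, a' i • f i) atTop
        (𝓝 (a • J u + b • J v + J z)) := by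
      have h1 : Tendsto (fun n : ℕ => ∑ i ∈ Finset.range n,
          (if i = 0 then a else if i = 1 then b else 0) • f i) atTop (𝓝 (a • J u + b • J v)) := by
        apply tendsto_atTop_of_eventually_const (i₀ := 2)
        intro n hn
        obtain ⟨k, rfl⟩ : ∃ k, n = 2 + k := ⟨n - 2, by omega⟩
        rw [Finset.sum_range_add, two]
        have h2 : ∑ x ∈ Finset.range k, (if 2 + x = 0 then a else if 2 + x = 1 then b else 0) • f (2 + x)
            = 0 := by
          refine Finset.sum_eq_zero fun i _ => ?_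
          rw [if_neg (by omega), if_neg (by omega), zero_smul]
        rw [h2, add_zero]
        simp
      refine (h1.add hc).congr fun n => ?_
      rw [← Finset.sum_add_distrib]
      exact Finset.sum_congr rfl fun i _ => (add_smul _ _ _).symm
    have h2 : a • J u + b • J v = ∑ i ∈ Finset.range 2, a' i • f i := by
      rw [two]
      simp [ha', hc0, hc1]
    rw [show ‖a • J u + b • J v‖ = ‖∑ i ∈ Finset.range 2, a' i • f i‖ from congrArg norm h2]
    refine ge_of_tendsto hlim.norm ?_
    filter_upwards [eventually_ge_atTop 2] with m hm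
    exact hmono a' 2 m hm
  · intro w
    have hA : ∀ i : Fin 3, ∃ a : ℕ → ℝ,
        Tendsto (fun n : ℕ => ∑ j ∈ Finset.range n, a j • f j) atTop (𝓝 (J (w i))) := fun i => by
      obtain ⟨a, ha, _⟩ := hex (J (w i)) ⟨w i, rfl⟩
      exact ⟨a, ha⟩
    choose A hA using hA
    let T : (Fin 3 → ℝ) →ₗ[ℝ] (Fin 2 → ℝ) :=
      { toFun := fun c => ![∑ i, c i * A i 0, ∑ i, c i * A i 1]
        map_add' := fun x y => by
          funext k
          fin_cases k <;> simp [Fin.sum_univ_three] <;> ring
        map_smul' := fun r x => by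
          funext k
          fin_cases k <;> simp [Fin.sum_univ_three] <;> ring }
    have hker : LinearMap.ker T ≠ ⊥ := by
      apply LinearMap.ker_ne_bot_of_finrank_lt
      simp
    obtain ⟨c, hc, hc0⟩ := Submodule.exists_mem_ne_zero_of_ne_bot hker
    rw [LinearMap.mem_ker] at hc
    refine ⟨c, hc0, ⟨fun j => ∑ i, c i * A i j, ?_, ?_, ?_⟩⟩
    · have := congrFun hc 0
      simpa [T] using this
    · have := congrFun hc 1
      simpa [T] using this
    · have e : J (show HN from ∑ i, c i • w i) = ∑ i, c i • J (w i) := by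
        have := map_sum J (fun i => (show HN from c i • w i)) Finset.univ
        refine this.trans ?_
        exact Finset.sum_congr rfl fun i _ => map_smul J (c i) (w i : HN)
      show Tendsto _ _ (𝓝 (J (show HN from ∑ i, c i • w i)))
      rw [e]
      have := tendsto_finsetSum Finset.univ fun i _ => (hA i).const_smul (c i)
      refine this.congr fun n => ?_
      simp_rw [Finset.smul_sum, smul_smul]
      rw [Finset.sum_comm]
      refine Finset.sum_congr rfl fun j _ => ?_
      rw [Finset.sum_smul]

theorem main :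
    ¬ (∀ (B : Type) [NormedAddCommGroup B] [NormedSpace ℝ B] [CompleteSpace B],
    ¬ FiniteDimensional ℝ B →
    (∃ e : ℕ → B,
      (∀ x : B, ∃! a : ℕ → ℝ,
        Tendsto (fun n : ℕ => ∑ i ∈ Finset.range n, a i • e i) atTop (𝓝 x)) ∧
      (∀ (a : ℕ → ℝ) (n m : ℕ), n ≤ m →
        ‖∑ i ∈ Finset.range n, a i • e i‖ ≤ ‖∑ i ∈ Finset.range m, a i • e i‖)) →
    ∀ F : Submodule ℝ B, IsClosed (F : Set B) → ¬ FiniteDimensional ℝ F →
      (∃ P : B →L[ℝ] B, (∀ x : B, P x ∈ F) ∧ (∀ x ∈ F, P x = x) ∧ ‖P‖ ≤ 1) →
      ∃ f : ℕ → B, (∀ i : ℕ, f i ∈ F) ∧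
        (∀ x ∈ F, ∃! a : ℕ → ℝ,
          Tendsto (fun n : ℕ => ∑ i ∈ Finset.range n, a i • f i) atTop (𝓝 x)) ∧
        (∀ (a : ℕ → ℝ) (n m : ℕ), n ≤ m →
          ‖∑ i ∈ Finset.range n, a i • f i‖ ≤ ‖∑ i ∈ Finset.range m, a i • f i‖)) := by
  intro h
  obtain ⟨f, h1, h2, h3⟩ := h BB BB_infinite
    ⟨eB bb, basis_ex bb bb_ne, basis_mono bb⟩ (LinearMap.range J) F_closed F_infinite
    ⟨P, fun x => ⟨L x, rfl⟩, by
      rintro x ⟨y, rfl⟩
      rw [P_apply, L_J], P_norm⟩
  exact no_basis f h1 h2 h3

end Pool.Agent.MonoBasis
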