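import Pool.Agent.H0.MonoBasis.Rank2

set_option autoImplicit false
open Filter Topology
open scoped InnerProductSpace

namespace Pool.Agent.MonoBasis

lemma ph_combo (n : ℕ) (u v : H) (a b : ℝ) :
    ph n (a • u + b • v) = a * ph n u + b * ph n v := by
  rw [ph_add, ph_smul, ph_smul]

lemma sign_mul_self_abs (a : ℝ) : Real.sign a * a = |a| := by
  rcases lt_trichotomy a 0 with h | h | h
  · rw [Real.sign_of_neg h, abs_of_neg h]; ring
  · subst h; simp
  · rw [Real.sign_of_pos h, abs_of_pos h]; ring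

lemma abs_diff_pos (a b t : ℝ) (ht : 0 < t) (h : |b| ≤ t * |a|) (ha : a ≠ 0) :
    |t * a + b| - |t * a| = Real.sign a * b := by
  have hb := abs_le.mp h
  rcases lt_or_gt_of_ne ha with h1 | h1
  · rw [Real.sign_of_neg h1]
    rw [abs_of_neg h1] at hb
    have h3 : t * a < 0 := mul_neg_of_pos_of_neg ht h1
    rw [abs_of_nonpos (by linarith [hb.2]), abs_of_neg h3]
    ring
  · rw [Real.sign_of_pos h1]
    rw [abs_of_pos h1] at hb
    have h3 : 0 < t * a := mul_pos ht h1
    rw [abs_of_nonneg (by linarith [hb.1]), abs_of_pos h3]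
    ring

lemma abs_diff_neg (a b t : ℝ) (ht : 0 < t) (h : |b| ≤ t * |a|) (ha : a ≠ 0) :
    |(-t) * a + b| - |(-t) * a| = -(Real.sign a * b) := by
  have := abs_diff_pos a (-b) t ht (by rwa [abs_neg]) ha
  have e1 : |(-t) * a + b| = |t * a + -b| := by
    rw [← abs_neg]; congr 1; ring
  have e2 : |(-t) * a| = |t * a| := by
    rw [← abs_neg]; congr 1; ring
  rw [e1, e2, this]
  ring

section
variable (u v : H)

/-- functional `L` -/
noncomputable def LL (g z : H) : ℝ :=
  ⟪g, z⟫_ℝ / ‖g‖ + ∑' n, cc n * (Real.sign (ph n g) * ph n z)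

lemma LL_neg (g z : H) : LL g (-z) = - LL g z := by
  unfold LL
  rw [inner_neg_right, neg_div, neg_add, ← tsum_neg]
  congr 1
  refine tsum_congr fun n => ?_
  rw [ph_neg]; ring

/-- functional `D` -/
noncomputable def DD (C : Finset ℕ) (h z : H) : ℝ :=
  ∑ m ∈ C, cc m * (Real.sign (ph m h) * ph m z)

lemma DD_neg (C : Finset ℕ) (h z : H) : DD C h (-z) = - DD C h z := by
  unfold DD
  rw [← Finset.sum_neg_distrib]
  refine Finset.sum_congr rfl fun n _ => ?_
  rw [ph_neg]; ring

end

/-- difference of one-sided derivatives. -/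
lemma dN_diff (g h z : H) (C : Finset ℕ) (t s : ℝ)
    (hC : ∀ m, ph m g = 0 → m ∉ C → ph m z = 0)
    (hC0 : ∀ m ∈ C, ph m g = 0)
    (hCs : ∀ m ∈ C, |t * ph m h + ph m z| - |t * ph m h| = s * (Real.sign (ph m h) * ph m z)) :
    dN g (t • h + z) - dN g (t • h) = LL g z + s * DD C h z := by
  classical
  unfold dN LL DD
  have h1 : ∑' n, cc n * th (ph n g) (ph n (t • h + z)) - ∑' n, cc n * th (ph n g) (ph n (t • h))
      = ∑' n, cc n * (Real.sign (ph n g) * ph n z)
        + s * ∑ m ∈ C, cc m * (Real.sign (ph m h) * ph m z) := by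
    rw [← (sm_th g (t • h + z)).tsum_sub (sm_th g (t • h))]
    have hfin : s * ∑ m ∈ C, cc m * (Real.sign (ph m h) * ph m z)
        = ∑' m, (if m ∈ C then s * (cc m * (Real.sign (ph m h) * ph m z)) else 0) := by
      rw [tsum_eq_sum (s := C) (fun b hb => if_neg hb), Finset.mul_sum]
      exact Finset.sum_congr rfl fun m hm => (if_pos hm).symm
    rw [hfin, ← (sm_sign g z).tsum_add]
    · refine tsum_congr fun m => ?_
      rw [ph_add, ph_smul]
      by_cases hm : ph m g = 0
      · by_cases hmC : m ∈ C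
        · rw [if_pos hmC, hm, Real.sign_zero]
          unfold th
          rw [if_pos rfl, if_pos rfl]
          have := hCs m hmC
          linear_combination cc m * this
        · rw [if_neg hmC, hm, Real.sign_zero, hC m hm hmC]
          unfold th
          rw [if_pos rfl, if_pos rfl, add_zero]
          ring
      · rw [if_neg (fun hmC => hm (hC0 m hmC))]
        unfold th
        rw [if_neg hm, if_neg hm]
        ring
    · exact summable_of_ne_finset_zero (s := C) (fun b hb => if_neg hb)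
  rw [inner_add_right, inner_smul_right]
  have : ∀ A B C' D' : ℝ, (A + B) / ‖g‖ + C' - (A / ‖g‖ + D') = B / ‖g‖ + (C' - D') := by
    intro A B C' D'; ring
  rw [this, h1]
  ring

set_option maxHeartbeats 1000000 in
theorem no_rank2 (u v : H) (hind : ∀ a b : ℝ, a • u + b • v = 0 → a = 0 ∧ b = 0)
    (Z : Submodule ℝ H)
    (hZ : ∀ a b : ℝ, ∀ z ∈ Z, NN (a • u + b • v) ≤ NN (a • u + b • v + z))
    (hcodim : ∀ w : Fin 3 → H, ∃ c : Fin 3 → ℝ, c ≠ 0 ∧ ∑ i, c i • w i ∈ Z) : False := by
  classical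
  have hu : u ≠ 0 := by
    intro h
    have := (hind 1 0 (by rw [h]; simp)).1
    norm_num at this
  have hBfin : {n : ℕ | ph n u = 0 ∧ ph n v = 0}.Finite :=
    (finite_zeros u hu).subset fun n hn => hn.1
  set B : Finset ℕ := hBfin.toFinset with hB
  have hBm : ∀ m, m ∈ B ↔ (ph m u = 0 ∧ ph m v = 0) := by
    intro m; rw [hB, Set.Finite.mem_toFinset]; rfl
  -- the vectors
  set g : ℕ → H := fun n => ph n v • u + (-ph n u) • v with hg
  set h : ℕ → H := fun n => ph n u • u + ph n v • v with hh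
  have hgne : ∀ n, n ∉ B → g n ≠ 0 := by
    intro n hn h0
    have := hind _ _ h0
    apply hn
    rw [hBm]
    exact ⟨by linarith [this.2], this.1⟩
  have hphg : ∀ m n, ph m (g n) = ph n v * ph m u - ph n u * ph m v := by
    intro m n; rw [hg]; simp only; rw [ph_combo]; ring
  have hphh : ∀ m n, ph m (h n) = ph n u * ph m u + ph n v * ph m v := by
    intro m n; rw [hh]; simp only; rw [ph_combo]
  have hCfin : ∀ n, n ∉ B → {m : ℕ | m ∉ B ∧ ph m (g n) = 0}.Finite := fun n hn =>
    (finite_zeros _ (hgne n hn)).subset fun m hm => hm.2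
  -- for m in class, ph m (h n) ≠ 0
  have hhne : ∀ n m, n ∉ B → m ∉ B → ph m (g n) = 0 → ph m (h n) ≠ 0 := by
    intro n m hn hm h0 h1
    rw [hphg] at h0
    rw [hphh] at h1
    rw [hBm] at hn hm
    have e1 : (ph n u ^ 2 + ph n v ^ 2) * (ph m u ^ 2 + ph m v ^ 2) = 0 := by
      linear_combination (ph n u * ph m u + ph n v * ph m v) * h1
        + (ph n v * ph m u - ph n u * ph m v) * h0
    have n1 : 0 < ph n u ^ 2 + ph n v ^ 2 := by
      by_contra hc
      push Not at hc
      apply hn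
      constructor <;> nlinarith [sq_nonneg (ph n u), sq_nonneg (ph n v)]
    have n2 : 0 < ph m u ^ 2 + ph m v ^ 2 := by
      by_contra hc
      push Not at hc
      apply hm
      constructor <;> nlinarith [sq_nonneg (ph m u), sq_nonneg (ph m v)]
    have := mul_pos n1 n2
    linarith
  -- key: D vanishes
  have key1 : ∀ n, n ∉ B → ∀ C : Finset ℕ, (∀ m, m ∈ C ↔ (m ∉ B ∧ ph m (g n) = 0)) →
      ∀ z ∈ Z, (∀ m ∈ B, ph m z = 0) →
      0 ≤ LL (g n) z + DD C (h n) z ∧ 0 ≤ LL (g n) z - DD C (h n) z := by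
    intro n hn C hC z hz hzB
    have hmono : ∀ t : ℝ, 0 ≤ dN (g n) (t • h n + z) - dN (g n) (t • h n) := by
      intro t
      rw [sub_nonneg]
      have l1 := NN_deriv (g n) (t • h n) (hgne n hn)
      have l2 := NN_deriv (g n) (t • h n + z) (hgne n hn)
      refine le_of_tendsto_of_tendsto l1 l2 ?_
      filter_upwards [self_mem_nhdsWithin] with ε hε
      have hε' : (0 : ℝ) < ε := hε
      apply div_le_div_of_nonneg_right _ hε'.le
      have e1 : g n + ε • (t • h n) = (ph n v + ε * t * ph n u) • u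
          + (-ph n u + ε * t * ph n v) • v := by
        rw [hg, hh]; simp only; module
      have e2 : g n + ε • (t • h n + z) = (ph n v + ε * t * ph n u) • u
          + (-ph n u + ε * t * ph n v) • v + ε • z := by
        rw [hg, hh]; simp only; module
      rw [e1, e2]
      have := hZ (ph n v + ε * t * ph n u) (-ph n u + ε * t * ph n v) (ε • z) (Z.smul_mem _ hz)
      linarith
    -- choose T
    obtain ⟨T, hT0, hT⟩ : ∃ T : ℝ, 0 < T ∧ ∀ m ∈ C, |ph m z| ≤ T * |ph m (h n)| := by
      refine ⟨1 + ∑ m ∈ C, |ph m z| / |ph m (h n)|, ?_, ?_⟩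
      · have : 0 ≤ ∑ m ∈ C, |ph m z| / |ph m (h n)| := Finset.sum_nonneg fun m _ => by positivity
        linarith
      · intro m hm
        have hne : ph m (h n) ≠ 0 := hhne n m hn ((hC m).1 hm).1 ((hC m).1 hm).2
        have hpos : 0 < |ph m (h n)| := abs_pos.mpr hne
        have := Finset.single_le_sum (f := fun m => |ph m z| / |ph m (h n)|)
          (fun m _ => by positivity) hm
        rw [div_le_iff₀ hpos] at this
        nlinarith
    have c1 : ∀ m, ph m (g n) = 0 → m ∉ C → ph m z = 0 := by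
      intro m hm hmC
      apply hzB
      by_contra hmB
      exact hmC ((hC m).2 ⟨hmB, hm⟩)
    have c2 : ∀ m ∈ C, ph m (g n) = 0 := fun m hm => ((hC m).1 hm).2
    constructor
    · have := dN_diff (g n) (h n) z C T 1 c1 c2 (by
        intro m hm
        rw [one_mul]
        exact abs_diff_pos _ _ _ hT0 (hT m hm) (hhne n m hn ((hC m).1 hm).1 ((hC m).1 hm).2))
      have h2 := hmono T
      rw [this] at h2
      linarith
    · have := dN_diff (g n) (h n) z C (-T) (-1) c1 c2 (by
        intro m hm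
        rw [abs_diff_neg _ _ _ hT0 (hT m hm) (hhne n m hn ((hC m).1 hm).1 ((hC m).1 hm).2)]
        ring)
      have h2 := hmono (-T)
      rw [this] at h2
      linarith
  have key : ∀ n, n ∉ B → ∀ C : Finset ℕ, (∀ m, m ∈ C ↔ (m ∉ B ∧ ph m (g n) = 0)) →
      ∀ z ∈ Z, (∀ m ∈ B, ph m z = 0) → DD C (h n) z = 0 := by
    intro n hn C hC z hz hzB
    have k1 := key1 n hn C hC z hz hzB
    have k2 := key1 n hn C hC (-z) (Z.neg_mem hz) (fun m hm => by rw [ph_neg, hzB m hm, neg_zero])
    rw [LL_neg, DD_neg] at k2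
    linarith [k1.1, k1.2, k2.1, k2.2]
  -- three disjoint classes
  obtain ⟨n1, hn1⟩ := Infinite.exists_notMem_finset B
  set C1 : Finset ℕ := (hCfin n1 hn1).toFinset with hC1
  have hC1m : ∀ m, m ∈ C1 ↔ (m ∉ B ∧ ph m (g n1) = 0) := by
    intro m; rw [hC1, Set.Finite.mem_toFinset]; rfl
  obtain ⟨n2, hn2⟩ := Infinite.exists_notMem_finset (B ∪ C1)
  rw [Finset.mem_union, not_or] at hn2
  set C2 : Finset ℕ := (hCfin n2 hn2.1).toFinset with hC2
  have hC2m : ∀ m, m ∈ C2 ↔ (m ∉ B ∧ ph m (g n2) = 0) := by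
    intro m; rw [hC2, Set.Finite.mem_toFinset]; rfl
  obtain ⟨n3, hn3⟩ := Infinite.exists_notMem_finset (B ∪ C1 ∪ C2)
  rw [Finset.mem_union, Finset.mem_union, not_or, not_or] at hn3
  set C3 : Finset ℕ := (hCfin n3 hn3.1.1).toFinset with hC3
  have hC3m : ∀ m, m ∈ C3 ↔ (m ∉ B ∧ ph m (g n3) = 0) := by
    intro m; rw [hC3, Set.Finite.mem_toFinset]; rfl
  -- disjointness
  have disj : ∀ a b : ℕ, a ∉ B → b ∉ B → ph b (g a) ≠ 0 → ∀ m, m ∉ B → ph m (g a) = 0 →
      ph m (g b) ≠ 0 := by
    intro a b _ _ hne m hm h1 h2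
    rw [hphg] at hne h1 h2
    rw [hBm] at hm
    apply hne
    have e1 : (ph a v * ph b u - ph a u * ph b v) * ph m u = 0 := by
      linear_combination ph b u * h1 - ph a u * h2
    have e2 : (ph a v * ph b u - ph a u * ph b v) * ph m v = 0 := by
      linear_combination ph b v * h1 - ph a v * h2
    rcases mul_eq_zero.mp e1 with h | h
    · exact h
    · rcases mul_eq_zero.mp e2 with h' | h'
      · exact h'
      · exact absurd ⟨h, h'⟩ hm
  have self : ∀ n, ph n (g n) = 0 := by intro n; rw [hphg]; ring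
  -- uniform notation
  set N : Fin 3 → ℕ := ![n1, n2, n3] with hN
  set CC : Fin 3 → Finset ℕ := ![C1, C2, C3] with hCC
  have hNB : ∀ i, N i ∉ B := by
    intro i; fin_cases i
    · exact hn1
    · exact hn2.1
    · exact hn3.1.1
  have hCCm : ∀ i m, m ∈ CC i ↔ (m ∉ B ∧ ph m (g (N i)) = 0) := by
    intro i; fin_cases i
    · exact hC1m
    · exact hC2m
    · exact hC3m
  have hlt : ∀ i j : Fin 3, i < j → ph (N j) (g (N i)) ≠ 0 := by
    have q12 : ph n2 (g n1) ≠ 0 := fun h0 => hn2.2 ((hC1m n2).2 ⟨hn2.1, h0⟩)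
    have q13 : ph n3 (g n1) ≠ 0 := fun h0 => hn3.1.2 ((hC1m n3).2 ⟨hn3.1.1, h0⟩)
    have q23 : ph n3 (g n2) ≠ 0 := fun h0 => hn3.2 ((hC2m n3).2 ⟨hn3.1.1, h0⟩)
    intro i j hij
    fin_cases i <;> fin_cases j <;> simp [hN] at hij ⊢ <;> assumption
  have hdisj : ∀ i j, i ≠ j → ∀ m ∈ CC i, m ∉ CC j := by
    intro i j hij m hmi hmj
    rw [hCCm] at hmi hmj
    rcases lt_or_gt_of_ne hij with h' | h'
    · exact disj (N i) (N j) (hNB i) (hNB j) (hlt i j h') m hmi.1 hmi.2 hmj.2
    · exact disj (N j) (N i) (hNB j) (hNB i) (hlt j i h') m hmi.1 hmj.2 hmi.2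
  -- interpolation vectors
  have hw : ∀ i : Fin 3, ∃ w : H, ∀ m ∈ B ∪ (CC 0 ∪ CC 1 ∪ CC 2),
      ph m w = if m ∈ CC i then Real.sign (ph m (h (N i))) else 0 := fun i => interp _ _
  choose w hw using hw
  have hsub : ∀ i, CC i ⊆ B ∪ (CC 0 ∪ CC 1 ∪ CC 2) := by
    intro i m hm
    apply Finset.mem_union_right
    fin_cases i
    · exact Finset.mem_union_left _ (Finset.mem_union_left _ hm)
    · exact Finset.mem_union_left _ (Finset.mem_union_right _ hm)
    · exact Finset.mem_union_right _ hm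
  obtain ⟨c, hc0, hcZ⟩ := hcodim w
  apply hc0
  set z := ∑ i, c i • w i with hz
  have hphz : ∀ m, ph m z = ∑ i, c i * ph m (w i) := by
    intro m
    rw [hz, Fin.sum_univ_three, Fin.sum_univ_three, ph_add, ph_add, ph_smul, ph_smul, ph_smul]
  have hzB : ∀ m ∈ B, ph m z = 0 := by
    intro m hm
    rw [hphz]
    refine Finset.sum_eq_zero fun i _ => ?_
    rw [hw i m (Finset.mem_union_left _ hm), if_neg, mul_zero]
    intro hmi
    exact ((hCCm i m).1 hmi).1 hm
  funext j
  have hD := key (N j) (hNB j) (CC j) (hCCm j) z hcZ hzB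
  have hDv : DD (CC j) (h (N j)) z = c j * ∑ m ∈ CC j, cc m := by
    unfold DD
    rw [Finset.mul_sum]
    refine Finset.sum_congr rfl fun m hm => ?_
    have : ph m z = c j * Real.sign (ph m (h (N j))) := by
      rw [hphz, Finset.sum_eq_single j]
      · rw [hw j m (hsub j hm), if_pos hm]
      · intro i _ hij
        rw [hw i m (hsub j hm), if_neg (hdisj j i hij.symm m hm), mul_zero]
      · intro h'; exact absurd (Finset.mem_univ j) h'
    rw [this]
    have hs : Real.sign (ph m (h (N j))) * Real.sign (ph m (h (N j))) = 1 := by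
      have hne := hhne (N j) m (hNB j) ((hCCm j m).1 hm).1 ((hCCm j m).1 hm).2
      rcases lt_or_gt_of_ne hne with h' | h'
      · rw [Real.sign_of_neg h']; norm_num
      · rw [Real.sign_of_pos h']; norm_num
    linear_combination cc m * c j * hs
  rw [hDv] at hD
  have hpos : 0 < ∑ m ∈ CC j, cc m := by
    apply Finset.sum_pos (fun m _ => cc_pos m)
    exact ⟨N j, (hCCm j (N j)).2 ⟨hNB j, self _⟩⟩
  rcases mul_eq_zero.mp hD with h' | h'
  · simpa using h'
  · exact absurd h' hpos.ne'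

end Pool.Agent.MonoBasis
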