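import Mathlib

set_option autoImplicit false
open Filter Topology
open scoped InnerProductSpace

namespace Pool.Agent.MonoBasis

/-- real sequence space `ℓ²`. -/
abbrev H : Type := lp (fun _ : ℕ => ℝ) 2

/-- sample points `4^{-(n+1)}` -/
noncomputable def tt (n : ℕ) : ℝ := (1 / 4) ^ (n + 1)

lemma tt_pos (n : ℕ) : 0 < tt n := by unfold tt; positivity

lemma tt_le (n : ℕ) : tt n ≤ 1 / 4 := by
  unfold tt
  calc ((1 : ℝ) / 4) ^ (n + 1) ≤ (1 / 4) ^ 1 :=
        pow_le_pow_of_le_one (by norm_num) (by norm_num) (by omega)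
    _ = 1 / 4 := by norm_num

lemma tt_inj : Function.Injective tt := by
  intro a b h
  unfold tt at h
  have := (pow_right_injective₀ (by norm_num : (0 : ℝ) < 1 / 4) (by norm_num)) h
  omega

/-- weights, total mass `1/4`. -/
noncomputable def cc (n : ℕ) : ℝ := (1 / 4) * ((1 / 2) ^ n / 2)

lemma cc_pos (n : ℕ) : 0 < cc n := by unfold cc; positivity

lemma cc_hasSum : HasSum cc (1 / 4) := by
  have h : HasSum (fun n : ℕ => ((1 : ℝ) / 2) ^ n / 2) 1 := by
    have := hasSum_geometric_two' (1 : ℝ)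
    convert this using 2 with n
    rw [one_div_pow]
    field_simp
  have := h.mul_left (1 / 4 : ℝ)
  rw [mul_one] at this
  exact this

lemma cc_summable : Summable cc := cc_hasSum.summable

lemma memlp_pow (t : ℝ) (h0 : 0 ≤ t) (h1 : t ≤ 1 / 4) :
    Memℓp (fun j : ℕ => t ^ j) 2 := by
  apply memℓp_gen
  have h2 : ∀ j : ℕ, ‖t ^ j‖ ^ (ENNReal.toReal 2) = (t ^ 2) ^ j := by
    intro j
    rw [Real.norm_of_nonneg (by positivity)]
    simp only [ENNReal.toReal_ofNat, Real.rpow_ofNat]
    ring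
  simp_rw [h2]
  exact summable_geometric_of_lt_one (by positivity) (by nlinarith)

/-- the vector `(1, t, t², …)`, `t = tt n`. -/
noncomputable def vv (n : ℕ) : H := ⟨fun j => tt n ^ j, memlp_pow _ (tt_pos n).le (tt_le n)⟩

/-- evaluation functional -/
noncomputable def ph (n : ℕ) (x : H) : ℝ := ⟪vv n, x⟫_ℝ

lemma ph_add (n : ℕ) (x y : H) : ph n (x + y) = ph n x + ph n y := inner_add_right _ _ _
lemma ph_smul (n : ℕ) (c : ℝ) (x : H) : ph n (c • x) = c * ph n x := by
  unfold ph; rw [inner_smul_right]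
lemma ph_sub (n : ℕ) (x y : H) : ph n (x - y) = ph n x - ph n y := inner_sub_right _ _ _
lemma ph_zero (n : ℕ) : ph n 0 = 0 := inner_zero_right _
lemma ph_neg (n : ℕ) (x : H) : ph n (-x) = - ph n x := inner_neg_right _ _

lemma ph_hasSum (n : ℕ) (x : H) : HasSum (fun j => tt n ^ j * x j) (ph n x) := by
  have := lp.hasSum_inner (𝕜 := ℝ) (vv n) x
  have e : (fun j => tt n ^ j * x j) = fun i => ⟪(vv n : ℕ → ℝ) i, (x : ℕ → ℝ) i⟫_ℝ := by
    funext j
    show tt n ^ j * x j = ⟪tt n ^ j, x j⟫_ℝ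
    simp [mul_comm]
  rw [e]
  exact this

lemma abs_le_norm (x : H) (j : ℕ) : |x j| ≤ ‖x‖ := by
  have := lp.norm_apply_le_norm (p := 2) (by norm_num) x j
  simpa using this

lemma ph_abs_le (n : ℕ) (x : H) : |ph n x| ≤ 2 * ‖x‖ := by
  have h := ph_hasSum n x
  have hg : HasSum (fun j : ℕ => ‖x‖ * (1 / 4 : ℝ) ^ j) (‖x‖ * (1 - 1 / 4)⁻¹) :=
    (hasSum_geometric_of_lt_one (by norm_num) (by norm_num)).mul_left _
  have hb : ∀ j, ‖tt n ^ j * x j‖ ≤ ‖x‖ * (1 / 4 : ℝ) ^ j := by
    intro j
    rw [norm_mul, Real.norm_of_nonneg (by have := tt_pos n; positivity), mul_comm]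
    apply mul_le_mul (by simpa using abs_le_norm x j)
      (pow_le_pow_left₀ (tt_pos n).le (tt_le n) j) (by have := tt_pos n; positivity) (norm_nonneg _)
  have := tsum_of_norm_bounded hg hb
  rw [h.tsum_eq] at this
  rw [Real.norm_eq_abs] at this
  refine this.trans ?_
  have := norm_nonneg x
  norm_num
  nlinarith

/-- the new norm -/
noncomputable def NN (x : H) : ℝ := ‖x‖ + ∑' n, cc n * |ph n x|

lemma sm (x : H) : Summable (fun n => cc n * |ph n x|) := by
  refine Summable.of_nonneg_of_le (fun n => mul_nonneg (cc_pos n).le (abs_nonneg _))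
    (fun n => mul_le_mul_of_nonneg_left (ph_abs_le n x) (cc_pos n).le)
    (cc_summable.mul_right (2 * ‖x‖))

lemma norm_le_NN (x : H) : ‖x‖ ≤ NN x := by
  unfold NN
  have : 0 ≤ ∑' n, cc n * |ph n x| := tsum_nonneg fun n => mul_nonneg (cc_pos n).le (abs_nonneg _)
  linarith

lemma NN_le (x : H) : NN x ≤ 2 * ‖x‖ := by
  unfold NN
  have : ∑' n, cc n * |ph n x| ≤ ∑' n, cc n * (2 * ‖x‖) :=
    (sm x).tsum_le_tsum (fun n => mul_le_mul_of_nonneg_left (ph_abs_le n x) (cc_pos n).le)
      (cc_summable.mul_right (2 * ‖x‖))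
  rw [tsum_mul_right, cc_hasSum.tsum_eq] at this
  have := norm_nonneg x
  linarith

lemma NN_add (x y : H) : NN (x + y) ≤ NN x + NN y := by
  unfold NN
  have h1 := norm_add_le x y
  have h2 : ∑' n, cc n * |ph n (x + y)| ≤ ∑' n, (cc n * |ph n x| + cc n * |ph n y|) := by
    refine (sm (x + y)).tsum_le_tsum (fun n => ?_) ((sm x).add (sm y))
    rw [ph_add, ← mul_add]
    exact mul_le_mul_of_nonneg_left (abs_add_le _ _) (cc_pos n).le
  rw [(sm x).tsum_add (sm y)] at h2
  linarith

lemma NN_smul (c : ℝ) (x : H) : NN (c • x) = ‖c‖ * NN x := by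
  unfold NN
  rw [norm_smul, mul_add, ← tsum_mul_left]
  congr 1
  refine tsum_congr fun n => ?_
  rw [ph_smul, abs_mul, Real.norm_eq_abs]
  ring

lemma NN_nonneg (x : H) : 0 ≤ NN x := (norm_nonneg x).trans (norm_le_NN x)

/-- `ℓ²` with the new norm. -/
def HN : Type := lp (fun _ : ℕ => ℝ) 2

noncomputable instance : AddCommGroup HN := inferInstanceAs (AddCommGroup H)
noncomputable instance : Module ℝ HN := inferInstanceAs (Module ℝ H)
noncomputable instance : Norm HN := ⟨fun x => NN x⟩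

lemma core : NormedSpace.Core ℝ HN where
  norm_nonneg x := NN_nonneg x
  norm_smul c x := NN_smul c x
  norm_triangle x y := NN_add x y
  norm_eq_zero_iff x := by
    constructor
    · intro h
      have h1 : ‖(show H from x)‖ ≤ NN x := norm_le_NN x
      have h2 : NN x = 0 := h
      have h3 : ‖(show H from x)‖ = 0 := le_antisymm (h2 ▸ h1) (norm_nonneg _)
      exact norm_eq_zero.mp h3
    · intro h
      subst h
      show NN 0 = 0
      have h0 := NN_smul 0 0
      simpa using h0

noncomputable instance : NormedAddCommGroup HN := NormedAddCommGroup.ofCore core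
noncomputable instance : NormedSpace ℝ HN := NormedSpace.ofCore core

lemma norm_def (x : HN) : ‖x‖ = NN x := rfl

instance : CompleteSpace HN := by
  apply Metric.complete_of_cauchySeq_tendsto
  intro u hu
  have hd : ∀ x y : HN, dist x y = NN ((show H from x) - (show H from y)) := by
    intro x y
    rw [dist_eq_norm]
    rfl
  have hu' : CauchySeq (fun n => (show H from u n)) := by
    rw [Metric.cauchySeq_iff] at hu ⊢
    intro ε hε
    obtain ⟨N, hN⟩ := hu ε hε
    refine ⟨N, fun m hm n hn => ?_⟩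
    have := hN m hm n hn
    rw [hd] at this
    rw [dist_eq_norm]
    exact (norm_le_NN _).trans_lt this
  obtain ⟨a, ha⟩ := cauchySeq_tendsto_of_complete hu'
  refine ⟨(show HN from a), ?_⟩
  rw [Metric.tendsto_atTop] at ha ⊢
  intro ε hε
  obtain ⟨N, hN⟩ := ha (ε / 2) (by positivity)
  refine ⟨N, fun n hn => ?_⟩
  have := hN n hn
  rw [hd]
  rw [dist_eq_norm] at this
  have h2 := NN_le ((show H from u n) - a)
  calc NN ((show H from u n) - a) ≤ _ := h2
    _ < ε := by linarith

end Pool.Agent.MonoBasis
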