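import Pool.Agent.H0.MonoBasis.Norm

set_option autoImplicit false
open Filter Topology
open scoped InnerProductSpace

namespace Pool.Agent.MonoBasis

/-- one-sided derivative of `|·|` at `a` in direction `b`. -/
noncomputable def th (a b : ℝ) : ℝ := if a = 0 then |b| else Real.sign a * b

lemma th_tendsto (a b : ℝ) :
    Tendsto (fun ε : ℝ => (|a + ε * b| - |a|) / ε) (𝓝[>] 0) (𝓝 (th a b)) := by
  have hc : Tendsto (fun ε : ℝ => a + ε * b) (𝓝[>] 0) (𝓝 a) := by
    have : Tendsto (fun ε : ℝ => a + ε * b) (𝓝 0) (𝓝 (a + 0 * b)) := by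
      apply Continuous.tendsto; fun_prop
    rw [zero_mul, add_zero] at this
    exact this.mono_left nhdsWithin_le_nhds
  unfold th
  rcases lt_trichotomy a 0 with h | h | h
  · rw [if_neg h.ne, Real.sign_of_neg h]
    refine Tendsto.congr' ?_ tendsto_const_nhds
    filter_upwards [hc.eventually (eventually_lt_nhds h), self_mem_nhdsWithin] with ε h1 h2
    have h2' : (0 : ℝ) < ε := h2
    rw [abs_of_neg h1, abs_of_neg h]
    field_simp
    ring
  · subst h
    rw [if_pos rfl]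
    refine Tendsto.congr' ?_ tendsto_const_nhds
    filter_upwards [self_mem_nhdsWithin] with ε h2
    have h2' : (0 : ℝ) < ε := h2
    rw [zero_add, abs_mul, abs_of_pos h2', abs_zero]
    field_simp
    ring
  · rw [if_neg h.ne', Real.sign_of_pos h]
    refine Tendsto.congr' ?_ tendsto_const_nhds
    filter_upwards [hc.eventually (eventually_gt_nhds h), self_mem_nhdsWithin] with ε h1 h2
    have h2' : (0 : ℝ) < ε := h2
    rw [abs_of_pos h1, abs_of_pos h]
    field_simp
    ring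

lemma th_bound (a b ε : ℝ) (hε : 0 < ε) : |(|a + ε * b| - |a|) / ε| ≤ |b| := by
  rw [abs_div, abs_of_pos hε, div_le_iff₀ hε]
  have := abs_abs_sub_abs_le_abs_sub (a + ε * b) a
  rw [add_sub_cancel_left, abs_mul, abs_of_pos hε] at this
  linarith

lemma norm_deriv (g w : H) (hg : g ≠ 0) :
    Tendsto (fun ε : ℝ => (‖g + ε • w‖ - ‖g‖) / ε) (𝓝[>] 0) (𝓝 (⟪g, w⟫_ℝ / ‖g‖)) := by
  have hg' : 0 < ‖g‖ := norm_pos_iff.mpr hg
  have h1 : Tendsto (fun ε : ℝ => (2 * ⟪g, w⟫_ℝ + ε * ‖w‖ ^ 2) / (‖g + ε • w‖ + ‖g‖)) (𝓝[>] 0)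
      (𝓝 (⟪g, w⟫_ℝ / ‖g‖)) := by
    have h0 : Tendsto (fun ε : ℝ => (2 * ⟪g, w⟫_ℝ + ε * ‖w‖ ^ 2) / (‖g + ε • w‖ + ‖g‖)) (𝓝 0)
        (𝓝 ((2 * ⟪g, w⟫_ℝ + 0 * ‖w‖ ^ 2) / (‖g + (0 : ℝ) • w‖ + ‖g‖))) := by
      apply Tendsto.div
      · apply Continuous.tendsto; fun_prop
      · apply Continuous.tendsto; fun_prop
      · rw [zero_smul, add_zero]; positivity
    have e : (2 * ⟪g, w⟫_ℝ + 0 * ‖w‖ ^ 2) / (‖g + (0 : ℝ) • w‖ + ‖g‖) = ⟪g, w⟫_ℝ / ‖g‖ := by
      rw [zero_smul, add_zero]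
      field_simp
      ring
    rw [e] at h0
    exact h0.mono_left nhdsWithin_le_nhds
  refine Tendsto.congr' ?_ h1
  filter_upwards [self_mem_nhdsWithin] with ε hε
  have hε' : (0 : ℝ) < ε := hε
  have h2 : ‖g + ε • w‖ ^ 2 = ‖g‖ ^ 2 + 2 * (ε * ⟪g, w⟫_ℝ) + ε ^ 2 * ‖w‖ ^ 2 := by
    rw [norm_add_sq_real, inner_smul_right, norm_smul, Real.norm_of_nonneg hε'.le]
    ring
  have h3 : 0 < ‖g + ε • w‖ + ‖g‖ := by positivity
  rw [div_eq_div_iff h3.ne' hε'.ne']
  nlinarith

/-- one-sided directional derivative of `NN`. -/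
noncomputable def dN (g w : H) : ℝ := ⟪g, w⟫_ℝ / ‖g‖ + ∑' n, cc n * th (ph n g) (ph n w)

lemma NN_deriv (g w : H) (hg : g ≠ 0) :
    Tendsto (fun ε : ℝ => (NN (g + ε • w) - NN g) / ε) (𝓝[>] 0) (𝓝 (dN g w)) := by
  have h2 : Tendsto (fun ε : ℝ => ∑' n, cc n * ((|ph n g + ε * ph n w| - |ph n g|) / ε)) (𝓝[>] 0)
      (𝓝 (∑' n, cc n * th (ph n g) (ph n w))) := by
    apply tendsto_tsum_of_dominated_convergence (sm w)
    · intro k
      exact (th_tendsto _ _).const_mul _
    · filter_upwards [self_mem_nhdsWithin] with ε hε k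
      rw [norm_mul, Real.norm_of_nonneg (cc_pos k).le]
      exact mul_le_mul_of_nonneg_left (th_bound _ _ _ hε) (cc_pos k).le
  have h3 := (norm_deriv g w hg).add h2
  refine Tendsto.congr' ?_ h3
  filter_upwards [self_mem_nhdsWithin] with ε hε
  have hε' : (0 : ℝ) < ε := hε
  unfold NN
  have e : ∑' n, cc n * ((|ph n g + ε * ph n w| - |ph n g|) / ε)
      = (∑' n, cc n * |ph n (g + ε • w)| - ∑' n, cc n * |ph n g|) / ε := by
    rw [← (sm (g + ε • w)).tsum_sub (sm g), ← tsum_div_const]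
    refine tsum_congr fun n => ?_
    rw [ph_add, ph_smul]
    ring
  rw [e]
  ring

lemma th_abs_le (a b : ℝ) : |th a b| ≤ |b| := by
  unfold th
  split_ifs with h
  · rw [abs_abs]
  · rw [abs_mul]
    have : |Real.sign a| ≤ 1 := by
      rcases Real.sign_apply_eq a with h | h | h <;> rw [h] <;> norm_num
    have := abs_nonneg b
    nlinarith

lemma sm_th (g w : H) : Summable (fun n => cc n * th (ph n g) (ph n w)) := by
  refine Summable.of_norm_bounded (sm w) fun n => ?_
  rw [norm_mul, Real.norm_of_nonneg (cc_pos n).le]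
  exact mul_le_mul_of_nonneg_left (th_abs_le _ _) (cc_pos n).le

lemma sm_sign (g w : H) : Summable (fun n => cc n * (Real.sign (ph n g) * ph n w)) := by
  refine Summable.of_norm_bounded (sm w) fun n => ?_
  rw [norm_mul, Real.norm_of_nonneg (cc_pos n).le]
  refine mul_le_mul_of_nonneg_left ?_ (cc_pos n).le
  rw [norm_mul]
  have : ‖Real.sign (ph n g)‖ ≤ 1 := by
    rcases Real.sign_apply_eq (ph n g) with h | h | h <;> rw [h] <;> norm_num
  have h2 := norm_nonneg (ph n w)
  have h3 : ‖ph n w‖ = |ph n w| := rfl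
  nlinarith

/-- zeros of a nonzero element are finitely many -/
lemma finite_zeros (x : H) (hx : x ≠ 0) : {n : ℕ | ph n x = 0}.Finite := by
  have hex : ∃ k, x k ≠ 0 := by
    by_contra hcon
    push Not at hcon
    apply hx
    ext k
    simpa using hcon k
  classical
  obtain ⟨k, hk, hmin⟩ : ∃ k, x k ≠ 0 ∧ ∀ i < k, x i = 0 := by
    refine ⟨Nat.find hex, Nat.find_spec hex, fun i hi => ?_⟩
    have := Nat.find_min hex hi
    push Not at this
    exact this
  have hkey : ∀ n, ph n x = 0 → |x k| ≤ 2 * ‖x‖ * tt n := by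
    intro n hn
    have h := ph_hasSum n x
    rw [hn] at h
    have h1 := (hasSum_nat_add_iff' (k + 1)).2 h
    have hs : ∑ i ∈ Finset.range (k + 1), tt n ^ i * x i = tt n ^ k * x k := by
      rw [Finset.sum_range_succ, Finset.sum_eq_zero, zero_add]
      intro i hi
      rw [hmin i (Finset.mem_range.mp hi), mul_zero]
    rw [hs] at h1
    have ht := tt_pos n
    have ht4 := tt_le n
    have hg : HasSum (fun j : ℕ => (‖x‖ * tt n ^ (k + 1)) * (tt n) ^ j)
        ((‖x‖ * tt n ^ (k + 1)) * (1 - tt n)⁻¹) :=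
      (hasSum_geometric_of_lt_one ht.le (by linarith)).mul_left _
    have hb : ∀ j, ‖tt n ^ (j + (k + 1)) * x (j + (k + 1))‖ ≤ (‖x‖ * tt n ^ (k + 1)) * tt n ^ j := by
      intro j
      rw [norm_mul, Real.norm_of_nonneg (by positivity), pow_add]
      have := abs_le_norm x (j + (k + 1))
      have h5 : ‖x (j + (k + 1))‖ = |x (j + (k + 1))| := rfl
      rw [h5]
      calc tt n ^ j * tt n ^ (k + 1) * |x (j + (k + 1))| ≤ tt n ^ j * tt n ^ (k + 1) * ‖x‖ :=
            mul_le_mul_of_nonneg_left this (by positivity)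
        _ = _ := by ring
    have h2 := tsum_of_norm_bounded hg hb
    rw [h1.tsum_eq, zero_sub, norm_neg, norm_mul, Real.norm_of_nonneg (by positivity)] at h2
    have h3 : (1 - tt n)⁻¹ ≤ 2 := by
      rw [inv_le_comm₀ (by linarith) (by norm_num)]
      linarith
    have h4 : tt n ^ k * |x k| ≤ tt n ^ k * (2 * ‖x‖ * tt n) := by
      calc tt n ^ k * |x k| ≤ ‖x‖ * tt n ^ (k + 1) * (1 - tt n)⁻¹ := h2
        _ ≤ ‖x‖ * tt n ^ (k + 1) * 2 := mul_le_mul_of_nonneg_left h3 (by positivity)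
        _ = _ := by ring
    exact le_of_mul_le_mul_left h4 (by positivity)
  have hxk : 0 < |x k| := abs_pos.mpr hk
  have hlim : Tendsto (fun n => 2 * ‖x‖ * tt n) atTop (𝓝 (2 * ‖x‖ * 0)) := by
    apply Tendsto.const_mul
    unfold tt
    exact (tendsto_pow_atTop_nhds_zero_of_lt_one (by norm_num) (by norm_num)).comp
      (tendsto_add_atTop_nat 1)
  rw [mul_zero] at hlim
  have hev := hlim.eventually (eventually_lt_nhds hxk)
  rw [eventually_atTop] at hev
  obtain ⟨N, hN⟩ := hev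
  refine (Finset.range N).finite_toSet.subset ?_
  intro n hn
  simp only [Finset.coe_range, Set.mem_Iio]
  by_contra hlt
  push Not at hlt
  have := hN n hlt
  have := hkey n hn
  linarith

/-- interpolation -/
lemma interp (S : Finset ℕ) (r : ℕ → ℝ) : ∃ w : H, ∀ m ∈ S, ph m w = r m := by
  classical
  set p := Lagrange.interpolate S tt r with hp
  refine ⟨∑ j ∈ Finset.range (p.natDegree + 1), p.coeff j • (lp.single 2 j (1 : ℝ) : H), ?_⟩
  intro m hm
  have h1 : ph m (∑ j ∈ Finset.range (p.natDegree + 1), p.coeff j • (lp.single 2 j (1 : ℝ) : H))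
      = ∑ j ∈ Finset.range (p.natDegree + 1), p.coeff j * tt m ^ j := by
    have hlin : ∀ (s : Finset ℕ), ph m (∑ j ∈ s, p.coeff j • (lp.single 2 j (1 : ℝ) : H))
        = ∑ j ∈ s, p.coeff j * ph m (lp.single 2 j (1 : ℝ) : H) := by
      intro s
      induction s using Finset.induction_on with
      | empty => simp [ph_zero]
      | insert a s ha ih => rw [Finset.sum_insert ha, Finset.sum_insert ha, ph_add, ph_smul, ih]
    rw [hlin]
    refine Finset.sum_congr rfl fun j _ => ?_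
    congr 1
    have h2 := ph_hasSum m (lp.single 2 j (1 : ℝ) : H)
    have h3 : HasSum (fun i => tt m ^ i * (lp.single 2 j (1 : ℝ) : H) i) (tt m ^ j) := by
      have := hasSum_single (f := fun i => tt m ^ i * (lp.single 2 j (1 : ℝ) : H) i) j (by
        intro b hb
        simp [lp.single_apply, hb])
      simpa using this
    exact h2.unique h3
  rw [h1, ← Polynomial.eval_eq_sum_range, hp]
  exact Lagrange.eval_interpolate_at_node _ (tt_inj.injOn) hm

end Pool.Agent.MonoBasis
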